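import Mathlib

namespace Pool.Agent.Results.MP_105209_co.No

open SimpleGraph Finset

/-- `G` is a `k`-threshold graph -/
def Thr {V : Type} (G : SimpleGraph V) (k : ℕ) : Prop :=
  ∃ (θ : Fin k → ℝ) (r : V → ℝ), StrictMono θ ∧
    ∀ v w, v ≠ w → (G.Adj v w ↔ Odd {i | θ i ≤ r v + r w}.ncard)

def H {V : Type} (r : V → ℝ) : SimpleGraph V where
  Adj v w := v ≠ w ∧ 0 ≤ r v + r w
  symm := ⟨fun _ _ h => ⟨h.1.symm, add_comm (r _) _ ▸ h.2⟩⟩
  loopless := ⟨fun _ h => h.1 rfl⟩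

lemma thr {V : Type} (r : V → ℝ) : Thr (H r) 1 :=
  ⟨0, r, Subsingleton.strictMono _, fun v w h => by by_cases c : 0 ≤ r v + r w <;> simp [H, h, c]⟩

def rk (m : ℕ) (b : Bool) : (Fin m × Fin m) ⊕ Bool × Fin m → ℝ
  | .inl p => -((bif b then p.1 else p.2 : Fin m) + 1)
  | .inr p => if p.1 = b then p.2 + 1 else -(m + 1)

theorem result (K : ℕ) : ∃ (V : Type) (_ : Fintype V) (H₁ H₂ : SimpleGraph V), Thr H₁ 1 ∧ Thr H₂ 1 ∧
    ∀ k ≤ K, ¬ Thr (H₁ ⊔ H₂) k := by
  classical
  refine ⟨_, inferInstance, _, _, thr (rk (2 * K + 2) true), thr (rk (2 * K + 2) false), ?_⟩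
  rintro k hk ⟨θ, r, -, h⟩
  let S := fun a : Fin (2 * K + 2) × Fin (2 * K + 2) =>
    univ.filter fun p : (Bool × Fin (2 * K + 2)) × Fin k => θ p.2 ≤ r (.inl a) + r (.inr p.1)
  have h1 : ∀ a b, r (.inl a) ≤ r (.inl b) → (S a).card = (S b).card → S a = S b := fun a b c d =>
    eq_of_subset_of_card_le (fun p hp => by simp [S] at hp ⊢; linarith) d.ge
  have h2 : ∀ a b s, (H (rk (2 * K + 2) true) ⊔ H (rk (2 * K + 2) false)).Adj (.inl a) (.inr (b, s)) ↔
      (bif b then a.1 else a.2) ≤ s := fun a b s => by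
    have := (Nat.cast_nonneg (α := ℝ) a.1.1); have := (Nat.cast_nonneg (α := ℝ) a.2.1)
    have := (Nat.cast_nonneg (α := ℝ) K)
    have := (Nat.cast_nonneg (α := ℝ) s.1)
    cases b <;> simp [H, rk] <;> rw [Fin.le_def, ← Nat.cast_le (α := ℝ)] <;>
      exact ⟨fun h => h.elim (fun _ => by linarith) fun _ => by linarith,
        fun h => by first | (left; linarith) | (right; linarith)⟩
  have h3 : ∀ a b, S a = S b → ∀ c s, (bif c then a.1 else a.2) ≤ s ↔ (bif c then b.1 else b.2) ≤ s :=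
    fun a b e c s => by
    rw [← h2, ← h2, h _ _ (by simp), h _ _ (by simp)]
    congr! 2
    ext i
    simpa [S] using Finset.ext_iff.1 e ((c, s), i)
  have := card_le_card_of_injOn (s := univ) (t := range (2 * (2 * K + 2) * k + 1)) (fun a => (S a).card)
    (fun a _ => by simpa [Nat.lt_succ_iff] using card_le_univ (S a)) fun a _ b _ e => by
      have := h3 a b ((le_total _ _).elim (h1 a b · e) fun c => (h1 b a c e.symm).symm)
      exact Prod.ext (eq_of_forall_ge_iff (this true)) (eq_of_forall_ge_iff (this false))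
  simp at this; nlinarith

end Pool.Agent.Results.MP_105209_co.No
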